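import Pool.Agent.N506.GZ.Stm

/-!
# Project GZ (helper506), part 2 (helper364): cyclic subgroups of free groups are separable
-/

set_option autoImplicit false

namespace Pool.Agent.N506.GZ

namespace T2

variable {α : Type}

/-- the coset of the element given by a word -/
def pt (g : FreeGroup α) (w : List (α × Bool)) : FreeGroup α ⧸ Subgroup.zpowers g :=
  QuotientGroup.mk (FreeGroup.mk w)

lemma pt_true (g : FreeGroup α) (x : α) (w : List (α × Bool)) :
    pt g ((x, true) :: w) = FreeGroup.of x • pt g w := by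
  have h : FreeGroup.mk ((x, true) :: w) = FreeGroup.of x * FreeGroup.mk w := by
    rw [FreeGroup.of, FreeGroup.mul_mk]
    rfl
  unfold pt
  rw [h]
  rfl

lemma pt_false (g : FreeGroup α) (x : α) (w : List (α × Bool)) :
    FreeGroup.of x • pt g ((x, false) :: w) = pt g w := by
  have h : FreeGroup.of x * FreeGroup.mk ((x, false) :: w) = FreeGroup.mk w := by
    have h2 : FreeGroup.mk ((x, false) :: w) = (FreeGroup.of x)⁻¹ * FreeGroup.mk w := by
      rw [FreeGroup.of, FreeGroup.inv_mk, FreeGroup.mul_mk]
      rfl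
    rw [h2, mul_inv_cancel_left]
  unfold pt
  conv_rhs => rw [← h]
  rfl

/-- a partial injection of a finite set extends to a permutation -/
lemma exists_perm {X : Type} {G : Type} [Group G] [MulAction G X] (S : Set X) (hS : S.Finite)
    (x : G) : ∃ σ : Equiv.Perm S, ∀ s t : S, x • s.1 = t.1 → σ s = t := by
  classical
  have : Finite S := hS
  let e : {s : S // x • s.1 ∈ S} ≃ {s : S // x⁻¹ • s.1 ∈ S} :=
    { toFun := fun s => ⟨⟨x • s.1.1, s.2⟩, by
        change x⁻¹ • (x • s.1.1) ∈ S
        rw [inv_smul_smul]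
        exact s.1.2⟩
      invFun := fun s => ⟨⟨x⁻¹ • s.1.1, s.2⟩, by
        change x • (x⁻¹ • s.1.1) ∈ S
        rw [smul_inv_smul]
        exact s.1.2⟩
      left_inv := fun s => by
        apply Subtype.ext
        apply Subtype.ext
        exact inv_smul_smul x s.1.1
      right_inv := fun s => by
        apply Subtype.ext
        apply Subtype.ext
        exact smul_inv_smul x s.1.1 }
  refine ⟨e.extendSubtype, fun s t hst => ?_⟩
  have hs : x • s.1 ∈ S := by
    rw [hst]
    exact t.2
  rw [Equiv.extendSubtype_apply_of_mem e s hs]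
  apply Subtype.ext
  exact hst

end T2

open T2 in
theorem t_freeSep : FreeSep := by
  classical
  intro α g h hh
  obtain ⟨L, hL⟩ : ∃ L : List (List (α × Bool)), L = g.toWord.tails ++ h.toWord.tails := ⟨_, rfl⟩
  obtain ⟨S, hS⟩ : ∃ S : Set (FreeGroup α ⧸ Subgroup.zpowers g), S = pt g '' {w | w ∈ L} :=
    ⟨_, rfl⟩
  have hfin : S.Finite := by
    rw [hS]
    exact (List.finite_toSet L).image _
  have hmem : ∀ w ∈ L, pt g w ∈ S := by
    intro w hw
    rw [hS]
    exact ⟨w, hw, rfl⟩
  have hcons : ∀ p w, p :: w ∈ L → w ∈ L := by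
    intro p w hw
    rw [hL, List.mem_append, List.mem_tails, List.mem_tails] at hw ⊢
    exact hw.imp (fun h1 => (List.suffix_cons p w).trans h1)
      (fun h1 => (List.suffix_cons p w).trans h1)
  have hnil : [] ∈ L := by
    rw [hL, List.mem_append, List.mem_tails]
    exact Or.inl (List.nil_suffix)
  have hgL : g.toWord ∈ L := by
    rw [hL, List.mem_append, List.mem_tails]
    exact Or.inl (List.suffix_refl _)
  have hhL : h.toWord ∈ L := by
    rw [hL, List.mem_append, List.mem_tails, List.mem_tails]
    exact Or.inr (List.suffix_refl _)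
  have hσ : ∀ x : α, ∃ σ : Equiv.Perm S, ∀ s t : S, FreeGroup.of x • s.1 = t.1 → σ s = t :=
    fun x => exists_perm S hfin (FreeGroup.of x)
  choose σ hσ using hσ
  have key : ∀ w (hw : w ∈ L), FreeGroup.lift σ (FreeGroup.mk w) ⟨pt g [], hmem _ hnil⟩ =
      ⟨pt g w, hmem w hw⟩ := by
    intro w
    induction w with
    | nil =>
      intro _
      have h1 : (FreeGroup.mk [] : FreeGroup α) = 1 := rfl
      rw [h1, map_one]
      rfl
    | cons p w ih =>
      intro hw
      have hw' := hcons p w hw
      have ih' := ih hw'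
      rw [FreeGroup.lift_mk] at ih' ⊢
      rw [List.map_cons, List.prod_cons, Equiv.Perm.mul_apply, ih']
      obtain ⟨x, b⟩ := p
      cases b with
      | true =>
        change σ x ⟨pt g w, hmem w hw'⟩ = _
        refine hσ x _ _ ?_
        exact (pt_true g x w).symm
      | false =>
        change (σ x)⁻¹ ⟨pt g w, hmem w hw'⟩ = _
        rw [Equiv.Perm.inv_eq_iff_eq]
        refine (hσ x _ _ ?_).symm
        exact pt_false g x w
  refine ⟨S, hfin, FreeGroup.lift σ, ⟨pt g [], hmem _ hnil⟩, ?_, ?_⟩
  · have h1 := key g.toWord hgL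
    rw [FreeGroup.mk_toWord] at h1
    rw [h1]
    apply Subtype.ext
    change pt g g.toWord = pt g []
    unfold pt
    rw [FreeGroup.mk_toWord]
    change QuotientGroup.mk g = QuotientGroup.mk 1
    rw [QuotientGroup.eq, mul_one]
    exact inv_mem (Subgroup.mem_zpowers g)
  · have h1 := key h.toWord hhL
    rw [FreeGroup.mk_toWord] at h1
    rw [h1]
    intro h2
    have h3 : pt g h.toWord = pt g [] := congrArg Subtype.val h2
    unfold pt at h3
    rw [FreeGroup.mk_toWord] at h3
    change (QuotientGroup.mk h : FreeGroup α ⧸ Subgroup.zpowers g) = QuotientGroup.mk 1 at h3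
    rw [QuotientGroup.eq, mul_one] at h3
    exact hh (inv_mem_iff.1 h3)

end Pool.Agent.N506.GZ
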