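import Pool.Agent.N506.GZ.Stm

/-!
# Free-by-cyclic groups are cyclic subgroup separable (project GZ, part 3)
-/

namespace Pool.Agent.N506.GZ

namespace T3

section act

variable {F Q : Type} [Group F] [Group Q] (φ : Q →* MulAut F) (S : Type)

/-- the action of the kernel -/
def actF : F →* Equiv.Perm ((F →* Equiv.Perm S) × S) where
  toFun w :=
    { toFun := fun x => (x.1, x.1 w x.2)
      invFun := fun x => (x.1, (x.1 w)⁻¹ x.2)
      left_inv := fun x => by simp
      right_inv := fun x => by simp }
  map_one' := by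
    ext1 x
    simp
  map_mul' w w' := by
    ext1 x
    simp

/-- the action of the quotient -/
def actQ : Q →* Equiv.Perm ((F →* Equiv.Perm S) × S) where
  toFun k :=
    { toFun := fun x => (x.1.comp (φ k⁻¹).toMonoidHom, x.2)
      invFun := fun x => (x.1.comp (φ k).toMonoidHom, x.2)
      left_inv := fun x => by
        refine Prod.ext (MonoidHom.ext fun w => ?_) rfl
        simp
      right_inv := fun x => by
        refine Prod.ext (MonoidHom.ext fun w => ?_) rfl
        simp }
  map_one' := by
    ext1 x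
    refine Prod.ext (MonoidHom.ext fun w => ?_) rfl
    simp
  map_mul' k k' := by
    ext1 x
    refine Prod.ext (MonoidHom.ext fun w => ?_) rfl
    simp

/-- the action of the semidirect product -/
def act : F ⋊[φ] Q →* Equiv.Perm ((F →* Equiv.Perm S) × S) :=
  SemidirectProduct.lift (actF S) (actQ φ S) (by
    intro k
    refine MonoidHom.ext fun w => Equiv.ext fun x => ?_
    have h1 : (actQ φ S k)⁻¹ x = (x.1.comp (φ k).toMonoidHom, x.2) := rfl
    show actF S (φ k w) x = actQ φ S k (actF S w ((actQ φ S k)⁻¹ x))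
    rw [h1]
    refine Prod.ext (MonoidHom.ext fun v => ?_) ?_
    · simp [actF, actQ]
    · simp [actF, actQ])

lemma act_inl (w : F) (ψ : F →* Equiv.Perm S) (s : S) :
    act φ S (SemidirectProduct.inl w) (ψ, s) = (ψ, ψ w s) := by
  unfold act
  rw [SemidirectProduct.lift_inl]
  rfl

end act

/-- a finite quotient which separates -/
lemma of_hom {G H : Type} [Group G] [Group H] [Finite H] (f : G →* H) {g h : G}
    (hh : f h ∉ Subgroup.zpowers (f g)) :
    ∃ K : Subgroup G, K.FiniteIndex ∧ Subgroup.zpowers g ≤ K ∧ h ∉ K := by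
  refine ⟨(Subgroup.zpowers (f g)).comap f, ⟨?_⟩, ?_, fun hK => hh hK⟩
  · rw [Subgroup.index_comap]
    exact Subgroup.index_ne_zero_of_finite
  · rw [Subgroup.zpowers_le]
    exact Subgroup.mem_zpowers (f g)

/-- reduction modulo `N` -/
def red (N : ℕ) : Multiplicative ℤ →* Multiplicative (ZMod N) :=
  AddMonoidHom.toMultiplicative (Int.castAddHom (ZMod N))

lemma red_eq_one {N : ℕ} {k : ℤ} : red N (Multiplicative.ofAdd k) = 1 ↔ (N : ℤ) ∣ k := by
  rw [← ZMod.intCast_zmod_eq_zero_iff_dvd]
  rfl

end T3

open T3 in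
theorem T3.main (hsep : FreeSep) (n : ℕ) (φ : Multiplicative ℤ →* MulAut (FreeGroup (Fin n))) :
    CSS (FreeGroup (Fin n) ⋊[φ] Multiplicative ℤ) := by
  intro g h hgh
  let ρ : FreeGroup (Fin n) ⋊[φ] Multiplicative ℤ →* Multiplicative ℤ :=
    SemidirectProduct.rightHom
  obtain ⟨k, hk⟩ : ∃ k : ℤ, ρ g = Multiplicative.ofAdd k := ⟨(ρ g).toAdd, rfl⟩
  obtain ⟨l, hl⟩ : ∃ l : ℤ, ρ h = Multiplicative.ofAdd l := ⟨(ρ h).toAdd, rfl⟩
  -- separation by a cyclic quotient
  have hcyc : ∀ N : ℕ, N ≠ 0 → (N : ℤ) ∣ k → ¬ (N : ℤ) ∣ l →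
      ∃ K : Subgroup (FreeGroup (Fin n) ⋊[φ] Multiplicative ℤ), K.FiniteIndex ∧
        Subgroup.zpowers g ≤ K ∧ h ∉ K := by
    intro N hN h1 h2
    have : NeZero N := ⟨hN⟩
    have : Finite (Multiplicative (ZMod N)) := inferInstanceAs (Finite (ZMod N))
    apply of_hom ((red N).comp ρ)
    have e1 : ((red N).comp ρ) g = 1 := by
      rw [MonoidHom.comp_apply, hk]
      exact red_eq_one.2 h1
    rw [e1, Subgroup.zpowers_one_eq_bot, Subgroup.mem_bot, MonoidHom.comp_apply, hl]
    exact fun h3 => h2 (red_eq_one.1 h3)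
  -- elements of the kernel
  have hker : ∀ u : FreeGroup (Fin n) ⋊[φ] Multiplicative ℤ, ρ u = 1 →
      u = SemidirectProduct.inl u.left := by
    intro u hu
    apply SemidirectProduct.ext
    · simp
    · rw [SemidirectProduct.right_inl]
      exact hu
  have hfinX : ∀ (S : Type) [Finite S], Finite ((FreeGroup (Fin n) →* Equiv.Perm S) × S) := by
    intro S _
    have : Finite (FreeGroup (Fin n) →* Equiv.Perm S) :=
      Finite.of_equiv (Fin n → Equiv.Perm S) FreeGroup.lift
    infer_instance
  by_cases hk0 : k = 0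
  · by_cases hl0 : l = 0
    · -- both elements in the free group
      have hg := hker g (by rw [hk, hk0]; rfl)
      have hh := hker h (by rw [hl, hl0]; rfl)
      have hnot : h.left ∉ Subgroup.zpowers g.left := by
        rintro ⟨j, hj⟩
        apply hgh
        refine ⟨j, ?_⟩
        simp only at hj ⊢
        rw [hg, hh, ← map_zpow, hj]
      obtain ⟨S, hS, f, o, h1, h2⟩ := hsep (Fin n) g.left h.left hnot
      have := hfinX S
      apply of_hom (act φ S)
      rintro ⟨j, hj⟩
      have e1 : act φ S g (f, o) = (f, o) := by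
        rw [hg, act_inl, h1]
      have e2 : (act φ S g ^ j) (f, o) = (f, o) := by
        have h3 : act φ S g ∈ MulAction.stabilizer (Equiv.Perm _) (f, o) := e1
        exact zpow_mem h3 j
      have e3 : act φ S h (f, o) = (f, f h.left o) := by
        conv_lhs => rw [hh]
        exact act_inl φ S _ _ _
      simp only at hj
      rw [hj, e3] at e2
      exact h2 (congrArg Prod.snd e2)
    · apply hcyc (l.natAbs + 1) (by omega)
      · rw [hk0]
        exact dvd_zero _
      · intro hd
        have h1 := Int.natAbs_dvd_natAbs.2 hd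
        have h2 := Nat.le_of_dvd (Int.natAbs_pos.2 hl0) h1
        rw [Int.natAbs_natCast] at h2
        omega
  · by_cases hd : k ∣ l
    · obtain ⟨m, hm⟩ := hd
      -- the element `h g ^ (-m)` of the free group
      obtain ⟨u, hu⟩ : ∃ u, u = h * g ^ (-m) := ⟨_, rfl⟩
      have hρu : ρ u = 1 := by
        rw [hu, map_mul, map_zpow, hk, hl, ← ofAdd_zsmul, ← ofAdd_add, hm, smul_eq_mul]
        rw [show k * m + -m * k = 0 by ring]
        rfl
      have huw := hker u hρu
      have hw : u.left ∉ Subgroup.zpowers (1 : FreeGroup (Fin n)) := by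
        rw [Subgroup.zpowers_one_eq_bot, Subgroup.mem_bot]
        intro h1
        rw [h1, map_one, hu] at huw
        apply hgh
        refine ⟨m, ?_⟩
        simp only
        rw [zpow_neg, mul_inv_eq_one] at huw
        exact huw.symm
      obtain ⟨S, hS, f, o, -, h2⟩ := hsep (Fin n) 1 u.left hw
      have hX := hfinX S
      have he : 0 < orderOf (act φ S g) := orderOf_pos _
      obtain ⟨N, hN⟩ : ∃ N : ℕ, N = k.natAbs * orderOf (act φ S g) := ⟨_, rfl⟩
      have hN0 : N ≠ 0 := by
        rw [hN]
        exact mul_ne_zero (Int.natAbs_ne_zero.2 hk0) he.ne'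
      have : NeZero N := ⟨hN0⟩
      have : Finite (Multiplicative (ZMod N)) := inferInstanceAs (Finite (ZMod N))
      apply of_hom ((act φ S).prod ((red N).comp ρ))
      rintro ⟨j, hj⟩
      simp only at hj
      have h3 : ((act φ S).prod ((red N).comp ρ)) u =
          ((act φ S).prod ((red N).comp ρ)) g ^ (j - m) := by
        rw [hu, map_mul, map_zpow, ← hj, ← zpow_add]
        congr 1
      have h4 : red N (Multiplicative.ofAdd ((j - m) * k)) = 1 := by
        have h5 := congrArg Prod.snd h3
        rw [← map_zpow] at h5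
        simp only [MonoidHom.prod_apply, MonoidHom.comp_apply] at h5
        rw [hρu, map_one, map_zpow, hk, ← ofAdd_zsmul, smul_eq_mul] at h5
        exact h5.symm
      rw [red_eq_one, hN] at h4
      have h5 : (orderOf (act φ S g) : ℤ) ∣ j - m := by
        have h6 : ((k.natAbs * orderOf (act φ S g) : ℕ) : ℤ) ∣ k * (j - m) := by
          rw [mul_comm k]
          exact h4
        have h7 : k * (orderOf (act φ S g) : ℤ) ∣ k * (j - m) := by
          rw [← Int.natAbs_dvd_natAbs] at h6 ⊢
          rw [Int.natAbs_natCast] at h6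
          rw [Int.natAbs_mul k, Int.natAbs_natCast]
          exact h6
        exact Int.dvd_of_mul_dvd_mul_left hk0 h7
      have h6 : act φ S g ^ (j - m) = 1 := orderOf_dvd_iff_zpow_eq_one.1 h5
      have h7 : act φ S u = 1 := by
        have h8 := congrArg Prod.fst h3
        rw [← map_zpow] at h8
        simp only [MonoidHom.prod_apply] at h8
        rw [map_zpow, h6] at h8
        exact h8
      have h8 : act φ S u (f, o) = (f, f u.left o) := by
        conv_lhs => rw [huw]
        exact act_inl φ S _ _ _
      rw [h7] at h8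
      exact h2 (congrArg Prod.snd h8).symm
    · apply hcyc k.natAbs (Int.natAbs_ne_zero.2 hk0)
      · exact Int.natAbs_dvd.2 dvd_rfl
      · intro h1
        exact hd (Int.natAbs_dvd.1 h1)

/-- GZ3: free-by-cyclic groups (finite rank) are cyclic subgroup separable. -/
theorem t_extSep : ExtSep := fun hsep n _ => T3.main hsep n _

end Pool.Agent.N506.GZ
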