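import Pool.Agent.N506.GZ.Stm

/-! Project GZ (helper506), part 4: the invariant quadratic form (helper434). -/

set_option autoImplicit false

namespace Pool.Agent.N506.GZ

open Finset

theorem t_noRetract : NoRetract := by
  classical
  intro G _ a t b c hat hb hc hinf
  rintro ⟨K, hK, haK, r, hr1, hr2⟩
  have hinj : ∀ m n : ℤ, a ^ m = a ^ n → m = n := by
    have h0 : ¬ IsOfFinOrder a := by
      rw [isOfFinOrder_iff_pow_eq_one]
      rintro ⟨n, hn, h⟩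
      exact hinf n hn h
    intro m n h
    exact injective_zpow_iff_not_isOfFinOrder.2 h0 h
  -- the exponent
  have hex : ∀ g : G, ∃ k : ℤ, ∀ hg : g ∈ K, r ⟨g, hg⟩ = a ^ k := by
    intro g
    by_cases hg : g ∈ K
    · obtain ⟨k, hk⟩ := Subgroup.mem_zpowers_iff.1 (hr1 ⟨g, hg⟩)
      exact ⟨k, fun _ => hk.symm⟩
    · exact ⟨0, fun h => absurd h hg⟩
  choose ρ hρ using hex
  have hρmul : ∀ g h : G, g ∈ K → h ∈ K → ρ (g * h) = ρ g + ρ h := by
    intro g h hg hh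
    apply hinj
    rw [zpow_add, ← hρ g hg, ← hρ h hh, ← hρ (g * h) (K.mul_mem hg hh), ← map_mul]
    rfl
  have hρconj : ∀ g h : G, g ∈ K → h ∈ K → ρ (h * g * h⁻¹) = ρ g := by
    intro g h hg hh
    have h1 := hρmul (h * g * h⁻¹) h (K.mul_mem (K.mul_mem hh hg) (K.inv_mem hh)) hh
    have h2 := hρmul h g hh hg
    rw [inv_mul_cancel_right] at h1
    omega
  -- the quotient
  let N : Subgroup G := K.normalCore
  have hNK : ∀ g : G, g ∈ N → g ∈ K := fun g hg => K.normalCore_le hg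
  have : N.FiniteIndex := inferInstanceAs (K.normalCore.FiniteIndex)
  have : Fintype (G ⧸ N) := Subgroup.fintypeQuotientOfFiniteIndex
  obtain ⟨n, hn⟩ : ∃ n : ℕ, n = N.index := ⟨_, rfl⟩
  have hn0 : n ≠ 0 := by
    rw [hn]
    exact Subgroup.FiniteIndex.index_ne_zero
  have hpow : ∀ x : G, x ^ n ∈ N := by
    intro x
    rw [hn]
    exact N.pow_index_mem x
  have hconjN : ∀ g x : G, g * x ^ n * g⁻¹ ∈ N := fun g x =>
    (inferInstance : N.Normal).conj_mem _ (hpow x) g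
  let F : G → G ⧸ N → ℤ := fun x q => ρ (q.out * x ^ n * q.out⁻¹)
  have hF : ∀ x g : G, F x (QuotientGroup.mk g) = ρ (g * x ^ n * g⁻¹) := by
    intro x g
    obtain ⟨ν, hν⟩ := QuotientGroup.mk_out_eq_mul N g
    show ρ ((QuotientGroup.mk g : G ⧸ N).out * x ^ n * (QuotientGroup.mk g : G ⧸ N).out⁻¹) = _
    rw [hν]
    have e : g * (ν : G) * x ^ n * (g * (ν : G))⁻¹ =
        (g * ν * g⁻¹) * (g * x ^ n * g⁻¹) * (g * ν * g⁻¹)⁻¹ := by group
    rw [e]
    exact hρconj _ _ (hNK _ (hconjN g x))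
      (hNK _ ((inferInstance : N.Normal).conj_mem _ ν.2 g))
  have hF1 : ∀ (x h : G) (q : G ⧸ N), F (h * x * h⁻¹) q = F x (q * QuotientGroup.mk h) := by
    intro x h q
    obtain ⟨g, rfl⟩ := QuotientGroup.mk_surjective q
    rw [← QuotientGroup.mk_mul, hF, hF, conj_pow]
    congr 1
    group
  have hF2 : ∀ (x y : G) (q : G ⧸ N), x * y = y * x → F (x * y) q = F x q + F y q := by
    intro x y q hxy
    obtain ⟨g, rfl⟩ := QuotientGroup.mk_surjective q
    rw [hF, hF, hF, ← hρmul _ _ (hNK _ (hconjN g x)) (hNK _ (hconjN g y)),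
      Commute.mul_pow (show Commute x y from hxy)]
    congr 1
    group
  have hQ : ∀ x h : G, ∑ q : G ⧸ N, F (h * x * h⁻¹) q ^ 2 = ∑ q : G ⧸ N, F x q ^ 2 := by
    intro x h
    rw [← Equiv.sum_comp (Equiv.mulRight (QuotientGroup.mk h : G ⧸ N)) (fun q => F x q ^ 2)]
    refine sum_congr rfl fun q _ => ?_
    rw [hF1]
    rfl
  have hb' : ∑ q : G ⧸ N, F (a * t) q ^ 2 = ∑ q : G ⧸ N, F t q ^ 2 := by
    rw [← hb, ← hQ t b⁻¹, inv_inv]
  have hc' : ∑ q : G ⧸ N, F (a ^ 2 * t) q ^ 2 = ∑ q : G ⧸ N, F t q ^ 2 := by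
    rw [← hc, ← hQ t c⁻¹, inv_inv]
  have e1 : ∀ q, F (a * t) q = F a q + F t q := fun q => hF2 a t q hat
  have e2 : ∀ q, F (a ^ 2 * t) q = 2 * F a q + F t q := by
    intro q
    have h1 : a ^ 2 * t = t * a ^ 2 := (Commute.pow_left (show Commute a t from hat) 2)
    rw [hF2 (a ^ 2) t q h1, pow_two, hF2 a a q rfl]
    ring
  simp only [e1] at hb'
  simp only [e2] at hc'
  have s1 : ∑ q : G ⧸ N, (F a q + F t q) ^ 2 =
      ∑ q : G ⧸ N, F a q ^ 2 + 2 * ∑ q : G ⧸ N, F a q * F t q + ∑ q : G ⧸ N, F t q ^ 2 := by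
    rw [mul_sum, ← sum_add_distrib, ← sum_add_distrib]
    exact sum_congr rfl fun q _ => by ring
  have s2 : ∑ q : G ⧸ N, (2 * F a q + F t q) ^ 2 =
      4 * ∑ q : G ⧸ N, F a q ^ 2 + 4 * ∑ q : G ⧸ N, F a q * F t q + ∑ q : G ⧸ N, F t q ^ 2 := by
    rw [mul_sum, mul_sum, ← sum_add_distrib, ← sum_add_distrib]
    exact sum_congr rfl fun q _ => by ring
  have s3 : ∑ q : G ⧸ N, F a q ^ 2 = 0 := by
    rw [s1] at hb'
    rw [s2] at hc'
    linarith
  have s4 : F a (QuotientGroup.mk 1) = n := by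
    rw [hF, one_mul, inv_one, mul_one]
    apply hinj
    have h1 : a ^ n ∈ K := hNK _ (hpow a)
    rw [← hρ (a ^ n) h1, hr2 ⟨a ^ n, h1⟩ (Subgroup.pow_mem _ (Subgroup.mem_zpowers a) n), zpow_natCast]
  have s5 : F a (QuotientGroup.mk 1) ^ 2 ≤ ∑ q : G ⧸ N, F a q ^ 2 :=
    single_le_sum (f := fun q => F a q ^ 2) (fun q _ => sq_nonneg _) (mem_univ _)
  rw [s3, s4] at s5
  have : (0 : ℤ) < (n : ℤ) ^ 2 := by positivity
  linarith

end Pool.Agent.N506.GZ
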