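import Pool.Agent.N506.GZ.Stm5

/-!
# Heights of words modulo a free factor (helper499)
-/

set_option autoImplicit false

namespace Pool.Agent.N506.GZ

open FreeGroup

namespace T5

/-- the number of letters different from `0` -/
def hl (L : List (Fin 3 × Bool)) : ℕ := (L.filter (fun p => p.1 ≠ 0)).length

theorem hgt_eq {x : FreeGroup (Fin 3)} {L : List (Fin 3 × Bool)} (h : x.toWord = L) :
    hgt x = hl L := by
  unfold hgt hl
  rw [h]

theorem hl_append (L : List (Fin 3 × Bool)) (s : Fin 3) (e : Bool) :
    hl (L ++ [(s, e)]) = hl L + if s = 0 then 0 else 1 := by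
  unfold hl
  rw [List.filter_append, List.length_append]
  by_cases h : s = 0
  · simp [h]
  · simp [h]

theorem isRed_left {u v : List (Fin 3 × Bool)} (h : IsReduced (u ++ v)) : IsReduced u :=
  List.IsChain.left_of_append h

theorem mk_toWord_of {L : List (Fin 3 × Bool)} (h : IsReduced L) : (mk L).toWord = L := by
  rw [toWord_mk, h.reduce_eq]

theorem mk_cancel (s : Fin 3) (e : Bool) : (mk [(s, !e)] : FreeGroup (Fin 3)) * mk [(s, e)] = 1 := by
  have h : (mk [(s, !e)] : FreeGroup (Fin 3)) = (mk [(s, e)])⁻¹ := by
    rw [inv_mk]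
    rfl
  rw [h, inv_mul_cancel]

/-- multiplication by a letter -/
theorem step (x : FreeGroup (Fin 3)) (s : Fin 3) (e : Bool) :
    (x * mk [(s, e)]).toWord = x.toWord ++ [(s, e)] ∨
    ∃ u, x.toWord = u ++ [(s, !e)] ∧ x * mk [(s, e)] = mk u ∧ (mk u : FreeGroup (Fin 3)).toWord = u := by
  have hx : IsReduced x.toWord := isReduced_toWord
  have hx2 : mk x.toWord = x := mk_toWord
  rcases List.eq_nil_or_concat x.toWord with h | ⟨u, p, h⟩
  · left
    have h1 : x = 1 := toWord_eq_nil_iff.1 h
    rw [h, h1, one_mul, List.nil_append]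
    exact mk_toWord_of IsReduced.singleton
  · rw [List.concat_eq_append] at h
    by_cases hp : p = (s, !e)
    · right
      have hu : IsReduced u := by
        rw [h] at hx
        exact isRed_left hx
      refine ⟨u, by rw [h, hp], ?_, mk_toWord_of hu⟩
      rw [← hx2, h, hp, ← mul_mk, mul_assoc, mk_cancel, mul_one]
    · left
      have h1 : IsReduced ([p] ++ [(s, e)]) := by
        rw [List.singleton_append, isReduced_cons_cons]
        refine ⟨fun h2 => ?_, IsReduced.singleton⟩
        by_contra h3
        apply hp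
        obtain ⟨p1, p2⟩ := p
        have h4 : p1 = s := h2
        have h5 : ¬ p2 = e := h3
        rw [h4]
        cases p2 <;> cases e <;> simp_all
      have h2 : IsReduced (u ++ [p] ++ [(s, e)]) := by
        rw [h] at hx
        exact hx.append_overlap h1 (by simp)
      rw [h, ← mk_toWord_of h2]
      congr 1
      rw [← mul_mk, ← h, hx2]

theorem hgt_zero (x : FreeGroup (Fin 3)) (e : Bool) : hgt (x * mk [(0, e)]) = hgt x := by
  rcases step x 0 e with h | ⟨u, h1, h2, h3⟩
  · rw [hgt_eq h, hl_append, if_pos rfl, add_zero]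
    exact (hgt_eq rfl).symm
  · rw [h2, hgt_eq h3, hgt_eq h1, hl_append, if_pos rfl, add_zero]

theorem of_eq : (of (0 : Fin 3)) = mk [(0, true)] := rfl

theorem of_inv : (of (0 : Fin 3))⁻¹ = mk [(0, false)] := by
  rw [of_eq, inv_mk]
  rfl

theorem hgt_zpow (x : FreeGroup (Fin 3)) (i : ℤ) : hgt (x * of 0 ^ i) = hgt x := by
  induction i using Int.induction_on with
  | zero => rw [zpow_zero, mul_one]
  | succ i ih => rw [zpow_add_one, ← mul_assoc, of_eq, hgt_zero, ← of_eq, ih]
  | pred i ih => rw [zpow_sub_one, ← mul_assoc, of_inv, hgt_zero, ih]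

/-- going down -/
theorem down {x : FreeGroup (Fin 3)} {s : Fin 3} {e : Bool} (hs : s ≠ 0)
    (h : hgt x = hgt (x * letter s e) + 1) :
    ∃ u, x.toWord = u ++ [(s, !e)] ∧ x * letter s e = mk u := by
  rcases step x s e with h1 | ⟨u, h1, h2, -⟩
  · exfalso
    have h2 : hgt (x * letter s e) = hgt x + 1 := by
      unfold letter
      rw [hgt_eq h1, hl_append, if_neg hs]
      rw [hgt_eq (x := x) rfl]
    omega
  · exact ⟨u, h1, h2⟩

/-- powers of the generator `0` after a letter different from `0` -/
theorem word_pow {x : FreeGroup (Fin 3)} {s : Fin 3} {c : Bool} {u : List (Fin 3 × Bool)}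
    (hs : s ≠ 0) (hx : x.toWord = u ++ [(s, c)]) (b : Bool) (n : ℕ) :
    (x * mk [(0, b)] ^ n).toWord = x.toWord ++ List.replicate n (0, b) := by
  induction n with
  | zero => rw [pow_zero, mul_one, List.replicate_zero, List.append_nil]
  | succ n ih =>
    rw [pow_succ, ← mul_assoc]
    rcases step (x * mk [(0, b)] ^ n) 0 b with h | ⟨v, h1, -, -⟩
    · rw [h, ih, List.append_assoc, ← List.replicate_succ']
    · exfalso
      rw [ih] at h1
      cases n with
      | zero =>
        rw [List.replicate_zero, List.append_nil, hx] at h1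
        have h2 := (List.append_inj' h1 rfl).2
        simp only [List.cons.injEq, Prod.mk.injEq, and_true] at h2
        exact hs h2.1
      | succ n =>
        rw [List.replicate_succ', ← List.append_assoc] at h1
        have h2 := (List.append_inj' h1 rfl).2
        simp only [List.cons.injEq, Prod.mk.injEq, and_true, true_and] at h2
        cases b <;> simp at h2

/-- words in the generator `0` -/
theorem mem_zero {z : List (Fin 3 × Bool)} (hz : ∀ p ∈ z, p.1 = 0) :
    (mk z : FreeGroup (Fin 3)) ∈ Subgroup.zpowers (of (0 : Fin 3)) := by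
  induction z with
  | nil => exact Subgroup.one_mem _
  | cons p z ih =>
    have h1 : (mk (p :: z) : FreeGroup (Fin 3)) = mk [p] * mk z := by rw [mul_mk]; rfl
    rw [h1]
    refine Subgroup.mul_mem _ ?_ (ih fun q hq => hz q (List.mem_cons_of_mem _ hq))
    obtain ⟨s, e⟩ := p
    have h2 : s = 0 := hz (s, e) (List.mem_cons_self ..)
    subst h2
    cases e
    · rw [← of_inv]
      exact Subgroup.inv_mem _ (Subgroup.mem_zpowers _)
    · exact Subgroup.mem_zpowers _

/-- the last letter different from `0` -/
theorem last_letter (w : List (Fin 3 × Bool)) : (∀ p ∈ w, p.1 = 0) ∨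
    ∃ (u : List (Fin 3 × Bool)) (s : Fin 3) (e : Bool) (z : List (Fin 3 × Bool)),
      w = u ++ [(s, e)] ++ z ∧ s ≠ 0 ∧ ∀ p ∈ z, p.1 = 0 := by
  induction w using List.reverseRecOn with
  | nil => left; simp
  | append_singleton w p ih =>
    by_cases hp : p.1 = 0
    · rcases ih with h | ⟨u, s, e, z, h1, h2, h3⟩
      · left
        intro q hq
        rw [List.mem_append, List.mem_singleton] at hq
        rcases hq with hq | rfl
        · exact h q hq
        · exact hp
      · right
        refine ⟨u, s, e, z ++ [p], by rw [h1, List.append_assoc], h2, ?_⟩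
        intro q hq
        rw [List.mem_append, List.mem_singleton] at hq
        rcases hq with hq | rfl
        · exact h3 q hq
        · exact hp
    · right
      exact ⟨w, p.1, p.2, [], by simp, hp, by simp⟩

end T5

open T5 in
theorem t_hgt : HgtStm := by
  refine ⟨hgt_zpow, ?_, ?_, ?_⟩
  · intro x s e hs
    rcases step x s e with h | ⟨u, h1, h2, h3⟩
    · left
      unfold letter
      rw [hgt_eq h, hl_append, if_neg hs]
      rw [hgt_eq (x := x) rfl]
    · right
      unfold letter
      rw [h2, hgt_eq h3, hgt_eq h1, hl_append, if_neg hs]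
  · intro x x' s s' e e' hxx hs hs' h h'
    obtain ⟨u, h1, h2⟩ := down hs h
    obtain ⟨u', h1', h2'⟩ := down hs' h'
    obtain ⟨k, hk⟩ := hxx
    have hk' : x' = x * of 0 ^ k := by
      have hk2 : of (0 : Fin 3) ^ k = x⁻¹ * x' := hk
      rw [hk2, mul_inv_cancel_left]
    have key : ∀ (b : Bool) (n : ℕ), x' = x * mk [(0, b)] ^ n → x' = x := by
      intro b n hn
      cases n with
      | zero => rw [hn, pow_zero, mul_one]
      | succ n =>
        exfalso
        have h3 := word_pow hs h1 b (n + 1)
        rw [← hn, h1', List.replicate_succ', ← List.append_assoc] at h3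
        have h4 := (List.append_inj' h3 rfl).2
        simp only [List.cons.injEq, Prod.mk.injEq, and_true] at h4
        exact hs' h4.1
    have hxx' : x' = x := by
      obtain ⟨n, rfl | rfl⟩ := Int.eq_nat_or_neg k
      · apply key true n
        rw [hk', zpow_natCast]
        rfl
      · apply key false n
        rw [hk', zpow_neg, zpow_natCast, ← of_inv, inv_pow]
    rw [h2, h2']
    rw [hxx', h1] at h1'
    rw [(List.append_inj' h1' rfl).1, inv_mul_cancel]
    exact Subgroup.one_mem _
  · intro x hx
    rcases last_letter x.toWord with h | ⟨u, s, e, z, h1, h2, h3⟩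
    · exfalso
      apply hx
      rw [← mk_toWord (x := x)]
      exact mem_zero h
    · obtain ⟨k, hk⟩ := mem_zero h3
      have hk2 : of (0 : Fin 3) ^ k = mk z := hk
      have hred : IsReduced x.toWord := isReduced_toWord
      rw [h1] at hred
      have hr1 : IsReduced (u ++ [(s, e)]) := isRed_left (v := z) (by simpa using hred)
      have hr2 : IsReduced u := isRed_left hr1
      have h4 : x * of 0 ^ (-k) = mk (u ++ [(s, e)]) := by
        rw [zpow_neg, hk2, ← mk_toWord (x := x), h1, ← mul_mk, mul_inv_cancel_right]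
      have h5 : x * of 0 ^ (-k) * letter s (!e) = mk u := by
        rw [h4, ← mul_mk, mul_assoc]
        have h6 := mk_cancel s (!e)
        rw [Bool.not_not] at h6
        unfold letter
        rw [h6, mul_one]
      refine ⟨-k, s, !e, h2, ?_⟩
      rw [h5, ← hgt_zpow x (-k), h4, hgt_eq (mk_toWord_of hr1), hgt_eq (mk_toWord_of hr2),
        hl_append, if_neg h2]

end Pool.Agent.N506.GZ
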