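import Pool.Agent.N506.GZ.T1
import Pool.Agent.N506.GZ.T2
import Pool.Agent.N506.GZ.T3
import Pool.Agent.N506.GZ.T4
import Pool.Agent.N506.GZ.T5

/-!
# Gersten's group: cyclic subgroup separable, but not every cyclic subgroup is a virtual retract
-/

namespace Pool.Agent.N506.GZ

open FreeGroup (of)

/-- The free group on `a = of 0`, `b = of 1`, `c = of 2`. -/
abbrev F : Type := FreeGroup (Fin 3)

/-- The element `a`. -/
def ea : F := of 0

/-- The endomorphism `a ↦ a`, `b ↦ b a ^ k`, `c ↦ c a ^ (2 k)`. -/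
def endo (k : ℤ) : F →* F := FreeGroup.lift ![of 0, of 1 * of 0 ^ k, of 2 * of 0 ^ (2 * k)]

theorem endo_of0 (k : ℤ) : endo k (of 0) = of 0 := by simp [endo]
theorem endo_of1 (k : ℤ) : endo k (of 1) = of 1 * of 0 ^ k := by simp [endo]
theorem endo_of2 (k : ℤ) : endo k (of 2) = of 2 * of 0 ^ (2 * k) := by simp [endo]

theorem endo_comp (k l : ℤ) : (endo k).comp (endo l) = endo (k + l) := by
  ext s
  fin_cases s
  · simp [endo_of0]
  · simp only [MonoidHom.comp_apply, Fin.mk_one]
    rw [endo_of1, map_mul, map_zpow, endo_of1, endo_of0, endo_of1, mul_assoc, ← zpow_add]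
  · simp only [MonoidHom.comp_apply, Fin.reduceFinMk]
    rw [endo_of2, map_mul, map_zpow, endo_of2, endo_of0, endo_of2, mul_assoc, ← zpow_add]
    congr 2
    ring

theorem endo_zero : endo 0 = MonoidHom.id F := by
  ext s
  fin_cases s
  · simp [endo_of0]
  · simp [endo_of1]
  · simp [endo_of2]

/-- The automorphism. -/
def Φ : MulAut F :=
  MonoidHom.toMulEquiv (endo 1) (endo (-1)) (by rw [endo_comp]; exact endo_zero)
    (by rw [endo_comp]; exact endo_zero)

theorem Φ_apply (x : F) : Φ x = endo 1 x := rfl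

/-- The action of the infinite cyclic group. -/
abbrev φ : Multiplicative ℤ →* MulAut F := zpowersHom (MulAut F) Φ

/-- Gersten's group. -/
abbrev G : Type := F ⋊[φ] Multiplicative ℤ

theorem zpow_Φ (k : ℤ) : ∀ x : F, (Φ ^ k) x = endo k x := by
  induction k using Int.induction_on with
  | zero => intro x; rw [zpow_zero, endo_zero]; rfl
  | succ k ih =>
    intro x
    rw [zpow_add_one, MulAut.mul_apply, ih, Φ_apply, ← MonoidHom.comp_apply, endo_comp]
  | pred k ih =>
    intro x
    have h : (Φ⁻¹ : MulAut F) x = endo (-1) x := rfl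
    rw [zpow_sub_one, MulAut.mul_apply, ih, h, ← MonoidHom.comp_apply, endo_comp]
    rfl

theorem φ_apply (k : Multiplicative ℤ) (x : F) : φ k x = endo k.toAdd x := by
  rw [zpowersHom_apply, zpow_Φ]

theorem φ_ea (k : Multiplicative ℤ) (i : ℤ) : φ k (of 0 ^ i) = of 0 ^ i := by
  rw [map_zpow, φ_apply, endo_of0]

theorem endo_letter (k : ℤ) (s : Fin 3) (e : Bool) (hs : s ≠ 0) :
    ∃ i j : ℤ, endo k (letter s e) = of 0 ^ i * letter s e * of 0 ^ j := by
  have ht : ∀ s : Fin 3, letter s true = of s := fun s => rfl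
  have hf : ∀ s : Fin 3, letter s false = (of s)⁻¹ := fun s => rfl
  have key : ∃ j : ℤ, endo k (of s) = of s * of 0 ^ j := by
    fin_cases s
    · exact absurd rfl hs
    · exact ⟨k, endo_of1 k⟩
    · exact ⟨2 * k, endo_of2 k⟩
  obtain ⟨j, hj⟩ := key
  cases e
  · exact ⟨-j, 0, by rw [hf, map_inv, hj, mul_inv_rev, zpow_zero, mul_one, zpow_neg]⟩
  · exact ⟨0, j, by rw [ht, hj, zpow_zero, one_mul]⟩

/-- The vertex group. -/
def A : Subgroup G where
  carrier := {g | g.left ∈ Subgroup.zpowers (of (0 : Fin 3))}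
  one_mem' := by
    show (1 : G).left ∈ Subgroup.zpowers (of (0 : Fin 3))
    rw [SemidirectProduct.one_left]
    exact Subgroup.one_mem _
  mul_mem' := by
    intro g h hg hh
    obtain ⟨i, hi⟩ := hg
    obtain ⟨j, hj⟩ := hh
    refine ⟨i + j, ?_⟩
    have hi' : of 0 ^ i = g.left := hi
    have hj' : of 0 ^ j = h.left := hj
    show of 0 ^ (i + j) = (g * h).left
    rw [SemidirectProduct.mul_left, ← hi', ← hj', φ_ea, zpow_add]
  inv_mem' := by
    intro g hg
    obtain ⟨i, hi⟩ := hg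
    refine ⟨-i, ?_⟩
    have hi' : of 0 ^ i = g.left := hi
    show of 0 ^ (-i) = (g⁻¹).left
    rw [SemidirectProduct.inv_left, ← hi', ← zpow_neg, φ_ea]

theorem mem_A (g : G) : g ∈ A ↔ g.left ∈ Subgroup.zpowers (of (0 : Fin 3)) := Iff.rfl

/-- The vertices. -/
abbrev V : Type := G ⧸ A

/-- The vertex of an element of the free group. -/
def vt (x : F) : V := ((SemidirectProduct.inl x : G) : V)

theorem vt_eq {x y : F} : vt x = vt y ↔ x⁻¹ * y ∈ Subgroup.zpowers (of (0 : Fin 3)) := by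
  unfold vt
  rw [QuotientGroup.eq, mem_A, ← map_inv, ← map_mul, SemidirectProduct.left_inl]

theorem vt_mul (x : F) (i : ℤ) : vt (x * of 0 ^ i) = vt x := by
  rw [eq_comm, vt_eq]
  exact ⟨i, by simp⟩

theorem mk_eq_vt (g : G) : (g : V) = vt g.left := by
  unfold vt
  rw [QuotientGroup.eq, mem_A]
  refine ⟨0, ?_⟩
  simp [SemidirectProduct.mul_left, SemidirectProduct.inv_left]

theorem smul_vt (g : G) (x : F) : g • vt x = vt (g.left * φ g.right x) := by
  unfold vt
  rw [MulAction.Quotient.smul_coe, mk_eq_vt]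
  simp [SemidirectProduct.mul_left, vt]

theorem exists_vt (v : V) : ∃ x, v = vt x := by
  obtain ⟨g, rfl⟩ := QuotientGroup.mk_surjective v
  exact ⟨_, mk_eq_vt g⟩

/-- The height. -/
noncomputable def ht (v : V) : ℕ := hgt (Classical.choose (exists_vt v))

theorem hgt_congr {x y : F} (h : vt x = vt y) : hgt x = hgt y := by
  obtain ⟨i, hi⟩ := vt_eq.mp h
  have : y = x * of 0 ^ i := by simp only at hi; rw [hi]; group
  rw [this, t_hgt.1]

theorem ht_vt (x : F) : ht (vt x) = hgt x :=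
  (hgt_congr (Classical.choose_spec (exists_vt (vt x)))).symm

/-- The adjacency. -/
def AdjG (u v : V) : Prop := ∃ (x : F) (s : Fin 3) (e : Bool), s ≠ 0 ∧ u = vt x ∧
  v = vt (x * letter s e)

theorem letter_mul (s : Fin 3) (e : Bool) : letter s e * letter s (!e) = 1 := by
  have ht : letter s true = of s := rfl
  have hf : letter s false = (of s)⁻¹ := rfl
  cases e
  · rw [Bool.not_false, ht, hf, inv_mul_cancel]
  · rw [Bool.not_true, ht, hf, mul_inv_cancel]

theorem AdjG.symm {u v : V} (h : AdjG u v) : AdjG v u := by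
  obtain ⟨x, s, e, hs, rfl, rfl⟩ := h
  exact ⟨x * letter s e, s, !e, hs, rfl, by rw [mul_assoc, letter_mul, mul_one]⟩

theorem AdjG.ht {u v : V} (h : AdjG u v) : ht u = ht v + 1 ∨ ht v = ht u + 1 := by
  obtain ⟨x, s, e, hs, rfl, rfl⟩ := h
  rw [ht_vt, ht_vt]
  exact (t_hgt.2.1 x s e hs).symm

/-- The tree. -/
def T : SimpleGraph V where
  Adj := AdjG
  symm := ⟨fun _ _ h => h.symm⟩
  loopless := ⟨fun u h => by have := h.ht; omega⟩

theorem isTree : T.IsTree := by
  refine t_tree V T ht (vt 1) (fun u v h => AdjG.ht h) ?_ ?_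
  · rintro u v w ⟨x, s, e, hs, hu, rfl⟩ ⟨x', s', e', hs', hu', rfl⟩ h1 h2
    subst hu
    rw [ht_vt, ht_vt] at h1
    rw [hu', ht_vt, ht_vt] at h2
    exact vt_eq.mpr (t_hgt.2.2.1 x x' s s' e e' (vt_eq.mp hu') hs hs' h1 h2)
  · intro u hu
    obtain ⟨x, rfl⟩ := exists_vt u
    have hx : x ∉ Subgroup.zpowers (of (0 : Fin 3)) := by
      intro hx
      apply hu
      rw [vt_eq, mul_one]
      exact Subgroup.inv_mem _ hx
    obtain ⟨i, s, e, hs, h⟩ := t_hgt.2.2.2 x hx
    refine ⟨vt (x * of 0 ^ i * letter s e), ⟨x * of 0 ^ i, s, e, hs, (vt_mul x i).symm, rfl⟩, ?_⟩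
    rw [ht_vt, ht_vt, h]

theorem smul_adj (g : G) (u v : V) (h : T.Adj u v) : T.Adj (g • u) (g • v) := by
  obtain ⟨x, s, e, hs, rfl, rfl⟩ := h
  obtain ⟨i, j, hij⟩ := endo_letter g.right.toAdd s e hs
  refine ⟨g.left * φ g.right x * of 0 ^ i, s, e, hs, ?_, ?_⟩
  · rw [smul_vt, vt_mul]
  · rw [smul_vt, map_mul, φ_apply g.right (letter s e), hij]
    rw [show g.left * (φ g.right x * (of 0 ^ i * letter s e * of 0 ^ j))
      = (g.left * φ g.right x * of 0 ^ i * letter s e) * of 0 ^ j by group, vt_mul]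

/-- The exponent sum of `b` and `c`. -/
def χ : F →* Multiplicative ℤ :=
  FreeGroup.lift ![1, Multiplicative.ofAdd 1, Multiplicative.ofAdd 1]

theorem χ_endo (k : ℤ) (x : F) : χ (endo k x) = χ x := by
  have : χ.comp (endo k) = χ := by
    ext s
    fin_cases s
    · simp [endo_of0]
    · simp [endo_of1, χ]
    · simp [endo_of2, χ]
  exact DFunLike.congr_fun this x

theorem χ_congr {x y : F} (h : vt x = vt y) : χ x = χ y := by
  obtain ⟨i, hi⟩ := vt_eq.mp h
  have : y = x * of 0 ^ i := by simp only at hi; rw [hi]; group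
  rw [this, map_mul, map_zpow]
  simp [χ]

theorem no_inv (g : G) (u v : V) (h : T.Adj u v) : ¬ (g • u = v ∧ g • v = u) := by
  rintro ⟨h1, h2⟩
  obtain ⟨x, s, e, hs, rfl, rfl⟩ := h
  rw [smul_vt] at h1 h2
  have e1 := χ_congr h1
  have e2 := χ_congr h2
  rw [map_mul, φ_apply, χ_endo, map_mul] at e1
  rw [map_mul, φ_apply, χ_endo, map_mul] at e2
  have hl : χ (letter s e) * χ (letter s e) = 1 := by
    have h3 : χ g.left * χ x = χ x * χ (letter s e) := e1
    have h4 : χ g.left * (χ x * χ (letter s e)) = χ x := e2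
    rw [← mul_assoc, h3, mul_assoc] at h4
    exact mul_left_cancel (a := χ x) (by rw [h4, mul_one])
  have hl' : χ (letter s e) = Multiplicative.ofAdd 1 ∨ χ (letter s e) = Multiplicative.ofAdd (-1) := by
    have hof : χ (of s) = Multiplicative.ofAdd 1 := by
      fin_cases s
      · exact absurd rfl hs
      · simp [χ]
      · simp [χ]
    cases e
    · right
      have : letter s false = (of s)⁻¹ := rfl
      rw [this, map_inv, hof]
      rfl
    · left
      exact hof
  have hz : (Multiplicative.toAdd (χ (letter s e) * χ (letter s e))) = 0 := by rw [hl]; rfl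
  rw [toAdd_mul] at hz
  rcases hl' with h5 | h5 <;> rw [h5] at hz <;> simp at hz

end Pool.Agent.N506.GZ
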