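import Pool.Agent.N506.GZ.Main

/-!
# Gersten's group: orbits, stabilizers, conclusion
-/

namespace Pool.Agent.N506.GZ

open FreeGroup (of)

theorem vertex_orbits : ∃ S : Finset V, ∀ v : V, ∃ g : G, g • v ∈ S := by
  refine ⟨{vt 1}, fun v => ?_⟩
  obtain ⟨x, rfl⟩ := exists_vt v
  refine ⟨SemidirectProduct.inl x⁻¹, ?_⟩
  rw [smul_vt, Finset.mem_singleton]
  simp

theorem edge_orbits : ∃ E : Finset (V × V), ∀ u v : V, T.Adj u v →
    ∃ g : G, (g • u, g • v) ∈ E := by
  classical
  refine ⟨Finset.univ.image (fun p : Fin 3 × Bool => (vt 1, vt (letter p.1 p.2))), ?_⟩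
  rintro u v ⟨x, s, e, hs, rfl, rfl⟩
  refine ⟨SemidirectProduct.inl x⁻¹, ?_⟩
  rw [smul_vt, smul_vt, Finset.mem_image]
  refine ⟨(s, e), Finset.mem_univ _, ?_⟩
  simp

/-- The exponent sum of `a`. -/
def χa : F →* Multiplicative ℤ := FreeGroup.lift ![Multiplicative.ofAdd 1, 1, 1]

theorem χa_pow (i : ℤ) : χa (of 0 ^ i) = Multiplicative.ofAdd i := by
  rw [map_zpow]
  have : χa (of 0) = Multiplicative.ofAdd 1 := by simp [χa]
  rw [this, ← ofAdd_zsmul]
  simp

theorem pow_inj {i j : ℤ} (h : (of (0 : Fin 3)) ^ i = of 0 ^ j) : i = j := by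
  have := congrArg χa h
  rw [χa_pow, χa_pow] at this
  exact Multiplicative.ofAdd.injective this

/-- The parametrization of the vertex group. -/
def par : Multiplicative (Fin 2 → ℤ) →* ↥A where
  toFun n := ⟨⟨of 0 ^ (n.toAdd 0), Multiplicative.ofAdd (n.toAdd 1)⟩, ⟨_, rfl⟩⟩
  map_one' := by
    apply Subtype.ext
    apply SemidirectProduct.ext <;> simp
  map_mul' m n := by
    apply Subtype.ext
    apply SemidirectProduct.ext
    · show _ = of 0 ^ (m.toAdd 0) * φ _ (of 0 ^ (n.toAdd 0))
      rw [φ_ea, ← zpow_add]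
      rfl
    · show _ = Multiplicative.ofAdd (m.toAdd 1) * Multiplicative.ofAdd (n.toAdd 1)
      rw [← ofAdd_add]
      rfl

theorem par_bij : Function.Bijective par := by
  constructor
  · intro m n h
    have h1 : (par m : G) = par n := congrArg Subtype.val h
    have h2 : (of (0 : Fin 3)) ^ (m.toAdd 0) = of 0 ^ (n.toAdd 0) :=
      congrArg SemidirectProduct.left h1
    have h3 : Multiplicative.ofAdd (m.toAdd 1) = Multiplicative.ofAdd (n.toAdd 1) :=
      congrArg SemidirectProduct.right h1
    apply Multiplicative.toAdd.injective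
    funext i
    fin_cases i
    · exact pow_inj h2
    · exact Multiplicative.ofAdd.injective h3
  · rintro ⟨g, hg⟩
    obtain ⟨i, hi⟩ := hg
    refine ⟨Multiplicative.ofAdd ![i, g.right.toAdd], ?_⟩
    apply Subtype.ext
    apply SemidirectProduct.ext
    · exact hi
    · rfl

theorem stab_base : MulAction.stabilizer G (vt 1) = A := by
  have : vt 1 = ((1 : G) : G ⧸ A) := by
    unfold vt
    rw [map_one]
  rw [this]
  exact MulAction.stabilizer_quotient A

theorem vertex_stab (v : V) :
    ∃ n : ℕ, Nonempty (↥(MulAction.stabilizer G v) ≃* Multiplicative (Fin n → ℤ)) := by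
  obtain ⟨x, rfl⟩ := exists_vt v
  refine ⟨2, ⟨?_⟩⟩
  have hx : vt x = (SemidirectProduct.inl x : G) • vt 1 := by
    rw [smul_vt]; simp
  refine (MulAction.stabilizerEquivStabilizer hx).symm.trans ?_
  exact (MulEquiv.subgroupCongr stab_base).trans (MulEquiv.ofBijective par par_bij).symm

/-- A representation. -/
noncomputable def rep : F →* Matrix.SpecialLinearGroup (Fin 2) ℤ :=
  FreeGroup.lift ![ModularGroup.T, ModularGroup.S, ModularGroup.S]

theorem rep_of0 : rep (of 0) = ModularGroup.T := by simp [rep]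

theorem rep_of (s : Fin 3) (hs : s ≠ 0) : rep (of s) = ModularGroup.S := by
  fin_cases s
  · exact absurd rfl hs
  · simp [rep]
  · simp [rep]

theorem TS {i j : ℤ} (h : ModularGroup.T ^ i * ModularGroup.S = ModularGroup.S * ModularGroup.T ^ j) :
    i = 0 ∧ j = 0 := by
  have h1 := congrArg (fun M : Matrix.SpecialLinearGroup (Fin 2) ℤ =>
    (M : Matrix (Fin 2) (Fin 2) ℤ)) h
  simp only [Matrix.SpecialLinearGroup.coe_mul, ModularGroup.coe_T_zpow, ModularGroup.coe_S] at h1
  have h2 := congrFun (congrFun h1 0) 0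
  have h3 := congrFun (congrFun h1 1) 1
  simp [Matrix.mul_apply, Fin.sum_univ_two] at h2 h3
  exact ⟨h2, h3.symm⟩

theorem conj_pow {s : Fin 3} {e : Bool} (hs : s ≠ 0) {i j : ℤ}
    (h : (letter s e)⁻¹ * of 0 ^ i * letter s e = of 0 ^ j) : i = 0 := by
  have h1 : of 0 ^ i * letter s e = letter s e * of 0 ^ j := by rw [← h]; group
  have h2 := congrArg rep h1
  rw [map_mul, map_mul, map_zpow, map_zpow, rep_of0] at h2
  cases e
  · have h3 : letter s false = (of s)⁻¹ := rfl
    rw [h3, map_inv, rep_of s hs] at h2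
    have h4 : ModularGroup.T ^ j * ModularGroup.S = ModularGroup.S * ModularGroup.T ^ i := by
      have : ModularGroup.T ^ i = ModularGroup.S⁻¹ * ModularGroup.T ^ j * ModularGroup.S := by
        rw [← h2]; group
      rw [this]; group
    exact (TS h4).2
  · have h3 : letter s true = of s := rfl
    rw [h3, rep_of s hs] at h2
    exact (TS h2).1

theorem edge_stab (u v : V) (h : T.Adj u v) :
    IsCyclic ↥(MulAction.stabilizer G u ⊓ MulAction.stabilizer G v) := by
  obtain ⟨x, s, e, hs, rfl, rfl⟩ := h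
  let K := MulAction.stabilizer G (vt x) ⊓ MulAction.stabilizer G (vt (x * letter s e))
  let f : K →* Multiplicative ℤ := (SemidirectProduct.rightHom (φ := φ)).comp K.subtype
  have hf : Function.Injective f := by
    rw [injective_iff_map_eq_one]
    rintro ⟨g, hg⟩ h1
    have h2 : g.right = 1 := h1
    obtain ⟨hu, hv⟩ := hg
    have hu' : g • vt x = vt x := hu
    have hv' : g • vt (x * letter s e) = vt (x * letter s e) := hv
    rw [smul_vt, h2, map_one, MulAut.one_apply, eq_comm, vt_eq] at hu' hv'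
    obtain ⟨i, hi⟩ := hu'
    obtain ⟨j, hj⟩ := hv'
    have hi' : of 0 ^ i = x⁻¹ * (g.left * x) := hi
    have hj' : of 0 ^ j = (x * letter s e)⁻¹ * (g.left * (x * letter s e)) := hj
    have h3 : (letter s e)⁻¹ * of 0 ^ i * letter s e = of 0 ^ j := by
      rw [hi', hj']; group
    have h4 := conj_pow hs h3
    rw [h4, zpow_zero] at hi'
    have h5 : g.left = 1 := by
      have : g.left = x * (x⁻¹ * (g.left * x)) * x⁻¹ := by group
      rw [this, ← hi']; group
    apply Subtype.ext
    exact SemidirectProduct.ext h5 h2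
  exact isCyclic_of_injective f hf

theorem css : CSS G := t_extSep t_freeSep 3 Φ

theorem noRetract : ¬ ∃ K : Subgroup G, K.FiniteIndex ∧
      Subgroup.zpowers (SemidirectProduct.inl (of 0) : G) ≤ K ∧
      ∃ r : ↥K →* G, (∀ k : ↥K, r k ∈ Subgroup.zpowers (SemidirectProduct.inl (of 0) : G)) ∧
        (∀ k : ↥K, (k : G) ∈ Subgroup.zpowers (SemidirectProduct.inl (of 0) : G) →
          r k = (k : G)) := by
  refine t_noRetract G (SemidirectProduct.inl (of 0))
    (SemidirectProduct.inr (Multiplicative.ofAdd 1)) (SemidirectProduct.inl (of 1))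
    (SemidirectProduct.inl (of 2)) ?_ ?_ ?_ ?_
  · apply SemidirectProduct.ext <;>
      simp [SemidirectProduct.mul_left, SemidirectProduct.mul_right, Φ_apply, endo_of0]
  · apply SemidirectProduct.ext <;>
      simp [SemidirectProduct.mul_left, SemidirectProduct.mul_right, Φ_apply, endo_of0, endo_of1,
        SemidirectProduct.inv_left, SemidirectProduct.inv_right]
  · apply SemidirectProduct.ext <;>
      simp [SemidirectProduct.mul_left, SemidirectProduct.mul_right, Φ_apply, endo_of0, endo_of2,
        SemidirectProduct.inv_left, SemidirectProduct.inv_right, pow_two, zpow_ofNat]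
  · intro n hn h
    rw [← map_pow] at h
    have h1 : (of (0 : Fin 3)) ^ n = 1 := SemidirectProduct.inl_injective (h.trans (map_one _).symm)
    have h2 : (of (0 : Fin 3)) ^ (n : ℤ) = of 0 ^ (0 : ℤ) := by
      rw [zpow_natCast, h1, zpow_zero]
    have := pow_inj h2
    omega

end Pool.Agent.N506.GZ
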