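import Mathlib

/-!
# Statements of the parts (project GZ, page MP_0fe979_al)
-/

namespace Pool.Agent.N506.GZ

/-- GZ1: a graph with a height function for which every vertex but the root has exactly one lower
neighbour is a tree. -/
def TreeStm : Prop :=
  ∀ (V : Type) (T : SimpleGraph V) (h : V → ℕ) (r : V),
    (∀ u v, T.Adj u v → h u = h v + 1 ∨ h v = h u + 1) →
    (∀ u v w, T.Adj u v → T.Adj u w → h u = h v + 1 → h u = h w + 1 → v = w) →
    (∀ u, u ≠ r → ∃ v, T.Adj u v ∧ h u = h v + 1) → T.IsTree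

/-- GZ2: cyclic subgroups of free groups are separable (M. Hall), in the form of a finite
permutation representation. -/
def FreeSep : Prop :=
  ∀ (α : Type) (g h : FreeGroup α), h ∉ Subgroup.zpowers g →
    ∃ (S : Type) (_ : Finite S) (f : FreeGroup α →* Equiv.Perm S) (o : S), f g o = o ∧ f h o ≠ o

/-- Cyclic subgroup separability. -/
def CSS (G : Type) [Group G] : Prop :=
  ∀ g h : G, h ∉ Subgroup.zpowers g →
    ∃ K : Subgroup G, K.FiniteIndex ∧ Subgroup.zpowers g ≤ K ∧ h ∉ K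

/-- GZ3: free-by-cyclic groups (finite rank) are cyclic subgroup separable. -/
def ExtSep : Prop :=
  FreeSep → ∀ (n : ℕ) (Φ : MulAut (FreeGroup (Fin n))),
    CSS (FreeGroup (Fin n) ⋊[zpowersHom (MulAut (FreeGroup (Fin n))) Φ] Multiplicative ℤ)

/-- GZ4: the invariant quadratic form. -/
def NoRetract : Prop :=
  ∀ (G : Type) [Group G] (a t b c : G), a * t = t * a → b⁻¹ * t * b = a * t →
    c⁻¹ * t * c = a ^ 2 * t → (∀ n : ℕ, 0 < n → a ^ n ≠ 1) →
    ¬ ∃ K : Subgroup G, K.FiniteIndex ∧ Subgroup.zpowers a ≤ K ∧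
      ∃ r : ↥K →* G, (∀ k : ↥K, r k ∈ Subgroup.zpowers a) ∧
        (∀ k : ↥K, (k : G) ∈ Subgroup.zpowers a → r k = (k : G))

end Pool.Agent.N506.GZ
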