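import Mathlib

/-!
# Statement of the part GZ5: heights of cosets of a free factor (project GZ, page MP_0fe979_al)
-/

namespace Pool.Agent.N506.GZ

open FreeGroup

/-- The number of letters of the reduced word which are different from the generator `0`. -/
def hgt (x : FreeGroup (Fin 3)) : ℕ := (x.toWord.filter (fun p => p.1 ≠ 0)).length

/-- The letter `s` (for `e = true`) or its inverse (for `e = false`). -/
def letter (s : Fin 3) (e : Bool) : FreeGroup (Fin 3) := FreeGroup.mk [(s, e)]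

/-- GZ5: heights. -/
def HgtStm : Prop :=
  (∀ (x : FreeGroup (Fin 3)) (i : ℤ), hgt (x * of 0 ^ i) = hgt x) ∧
  (∀ (x : FreeGroup (Fin 3)) (s : Fin 3) (e : Bool), s ≠ 0 →
    hgt (x * letter s e) = hgt x + 1 ∨ hgt x = hgt (x * letter s e) + 1) ∧
  (∀ (x x' : FreeGroup (Fin 3)) (s s' : Fin 3) (e e' : Bool),
    x⁻¹ * x' ∈ Subgroup.zpowers (of (0 : Fin 3)) → s ≠ 0 → s' ≠ 0 →
    hgt x = hgt (x * letter s e) + 1 → hgt x' = hgt (x' * letter s' e') + 1 →
    (x * letter s e)⁻¹ * (x' * letter s' e') ∈ Subgroup.zpowers (of (0 : Fin 3))) ∧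
  (∀ x : FreeGroup (Fin 3), x ∉ Subgroup.zpowers (of (0 : Fin 3)) →
    ∃ (i : ℤ) (s : Fin 3) (e : Bool), s ≠ 0 ∧
      hgt x = hgt (x * of 0 ^ i * letter s e) + 1)

end Pool.Agent.N506.GZ
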