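import Pool.Agent.N506.GZ.Stm

set_option autoImplicit false

namespace Pool.Agent.N506.GZ

theorem t_tree : TreeStm := by
  classical
  intro V T h r h1 h2 h3
  have hreach : ∀ (n : ℕ) (u : V), h u = n → T.Reachable u r := by
    intro n
    induction n using Nat.strong_induction_on with
    | _ n ih =>
      intro u hu
      by_cases hur : u = r
      · rw [hur]
      · obtain ⟨v, hv, hh⟩ := h3 u hur
        exact hv.reachable.trans (ih (h v) (by omega) v rfl)
  have : Nonempty V := ⟨r⟩
  refine ⟨⟨fun u v => (hreach _ u rfl).trans (hreach _ v rfl).symm⟩, ?_⟩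
  intro w c hc
  obtain ⟨u, hu, hmax⟩ : ∃ u ∈ c.support, ∀ v ∈ c.support, h v ≤ h u := by
    obtain ⟨u, hu, hm⟩ := c.support.toFinset.exists_max_image h ⟨w, by simp⟩
    exact ⟨u, by simpa using hu, fun v hv => hm v (by simpa using hv)⟩
  have hc' : (c.rotate u hu).IsCycle := (SimpleGraph.Walk.isCycle_rotate hu).2 hc
  have hmem : ∀ v ∈ (c.rotate u hu).support, h v ≤ h u := by
    intro v hv
    exact hmax v ((SimpleGraph.Walk.mem_support_rotate_iff c u hu).1 hv)
  have ha1 := (c.rotate u hu).adj_snd hc'.not_nil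
  have ha2 := (c.rotate u hu).adj_penultimate hc'.not_nil
  have hs1 : h (c.rotate u hu).snd ≤ h u := hmem _ (SimpleGraph.Walk.getVert_mem_support _ _)
  have hs2 : h (c.rotate u hu).penultimate ≤ h u :=
    hmem _ (SimpleGraph.Walk.getVert_mem_support _ _)
  have e1 : h u = h (c.rotate u hu).snd + 1 := by
    rcases h1 _ _ ha1 with h | h <;> omega
  have e2 : h u = h (c.rotate u hu).penultimate + 1 := by
    rcases h1 _ _ ha2.symm with h | h <;> omega
  exact hc'.snd_ne_penultimate (h2 u _ _ ha1 ha2.symm e1 e2)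

end Pool.Agent.N506.GZ
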